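import Pool.Agent.Helper345.SM.ctx_exists
import Pool.Agent.Helper345.SM.T_erg
import Pool.Agent.Helper345.SM.final
import Pool.Agent.Helper345.SM.XX_standard
import Pool.Agent.Helper345.SM.Bridge
import Pool.Agent.Helper345.SM.NoAt

/-!
# MP_9f219e_an: the set {3, 4} is the set of spectral multiplicities of an ergodic automorphism

The definitions used in the statement (`SM345.IsSpectralDecomposition`, `SM345.HasMultiplicities`
and the Borel sigma-algebra on the circle) are in `Pool/Agent/Helper345/SM/Stmt.lean`.
-/

open MeasureTheory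

namespace Pool.Agent.Results.MP_9f219e_an.ThreeFour

open SM345

/-- The set `{3, 4}` is realised: there is an ergodic automorphism `T` of a standard non-atomic
probability space whose set of spectral multiplicities is `{3, 4}`. -/
theorem result : ∃ (Y : Type) (_ : MeasurableSpace Y) (_ : StandardBorelSpace Y) (μ : Measure Y)
    (_ : IsProbabilityMeasure μ) (T : Y ≃ᵐ Y), (∀ y, μ {y} = 0) ∧ Ergodic T μ ∧
    HasMultiplicities μ T 3 4 := by
  obtain ⟨c⟩ := ctx_exists
  have hprob : IsProbabilityMeasure c.μ := c.hμ.prob
  exact ⟨X, instMSXX Om pP, XX_standard pP, c.μ, hprob, c.G, noAtoms c, T_erg c,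
    bridge _ _ c.hG 3 4 (final c)⟩

end Pool.Agent.Results.MP_9f219e_an.ThreeFour
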